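import Mathlib
import Pool.Agent.Helper18.NF.Stmts2

/-!
MP_8312c9_nt, module LCT: the Kummer cocycle is everywhere locally trivial.
-/

set_option autoImplicit false

namespace Pool.Agent.Helper18.NF

open Pool.Agent.Helper14.BSC Polynomial

theorem lct_stable {k Ω : Type} [Field k] [Field Ω] [Algebra k Ω] (D : Sec k Ω)
    (S : Set (Acl k Ω)) (hS : ∀ g : GG k Ω, ∀ a ∈ S, g a ∈ S) (g : GG k Ω) (x : Ω)
    (hx : x ∈ NN D S) : D.s g x ∈ NN D S := by
  rw [mem_NN] at hx ⊢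
  intro h hh
  have h1 : g⁻¹ * h * g ∈ Stab S := by
    rw [mem_Stab]
    intro a ha
    have h2 : h (g a) = g a := hh _ (hS g a ha)
    rw [AlgEquiv.mul_apply, AlgEquiv.mul_apply, h2, ← AlgEquiv.mul_apply, inv_mul_cancel]
    rfl
  have h3 := hx _ h1
  have h4 : D.s g (D.s (g⁻¹ * h * g) x) = D.s h (D.s g x) := by
    rw [← AlgEquiv.mul_apply, ← map_mul, ← AlgEquiv.mul_apply, ← map_mul]
    congr 2
    group
  rw [← h4, h3]

theorem st_LCT (h1 : ST_GST) (h2 : ST_NFI) (h3 : ST_EQG) (h4 : ST_RED)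
    (h5 : Pool.Agent.Helper14.BSC.ST_RK) (h6 : Pool.Agent.Helper22.FF.ST_BCS)
    (h7 : Pool.Agent.Helper22.FF.ST_FFS) : ST_LCT := by
  classical
  intro k Ω _ _ _ _ _ _ D a b hΔ Q ξ hξ l _ _ ι
  haveI hAcl0 : CharZero (Acl k Ω) :=
    charZero_of_injective_algebraMap (algebraMap k (Acl k Ω)).injective
  rcases EP.cases hΔ Q with hQ | ⟨x, y, h, hQ⟩
  · refine ⟨0, ?_⟩
    intro g τ _ _
    have e1 := hξ g
    rw [hQ, map_zero, zero_add] at e1
    have e2 : ξ g = 0 := by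
      apply EP.map_injective (a := a) (b := b) (Acl k Ω).val
      rw [← e1, map_zero]
    rw [e2, map_zero, map_zero, add_zero]
  · obtain ⟨Ex, hEx⟩ := D.fin x
    obtain ⟨Ey, hEy⟩ := D.fin y
    obtain ⟨S, hS0, hS⟩ := h1 k Ω (Ex ∪ Ey)
    have hxN : x ∈ NN D (S : Set (Acl k Ω)) := by
      rw [mem_NN]
      intro g hg
      exact hEx g (fun c hc => hg c (hS0 (Finset.mem_union_left _ hc)))
    have hyN : y ∈ NN D (S : Set (Acl k Ω)) := by
      rw [mem_NN]
      intro g hg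
      exact hEy g (fun c hc => hg c (hS0 (Finset.mem_union_right _ hc)))
    obtain ⟨k', hk'⟩ : ∃ k' : IntermediateField k Ω, k' =
      IntermediateField.adjoin k ((fun a : Acl k Ω => (a : Ω)) '' (S : Set (Acl k Ω))) := ⟨_, rfl⟩
    obtain ⟨D', hD'⟩ := h6 k Ω D (S : Set (Acl k Ω)) k' hk'
    obtain ⟨E₀, hfin, hE₀⟩ := h2 k Ω S l (ι : Acl k Ω →+* ℂ_[l])
    have hle : k' ≤ algebraicClosure k Ω := by
      rw [hk', IntermediateField.adjoin_le_iff]
      rintro _ ⟨c, _, rfl⟩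
      exact c.2
    have hFF : ∀ c : k', IntermediateField.inclusion hle c ∈ FF (S : Set (Acl k Ω)) := by
      intro c
      rw [h7 k Ω (S : Set (Acl k Ω)), ← hk']
      exact c.2
    haveI : CharZero k' := charZero_of_injective_algebraMap (algebraMap k k').injective
    haveI : CharZero (LL D') := charZero_of_injective_algebraMap (algebraMap k' (LL D')).injective
    obtain ⟨j, hj⟩ : ∃ j : k' →ₐ[k] ℂ_[l], j = ι.comp (IntermediateField.inclusion hle) := ⟨_, rfl⟩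
    obtain ⟨P', -⟩ := h5 k' Ω D' l (j : k' →+* ℂ_[l]) E₀ hfin (by
      intro c
      rw [hj]
      exact hE₀ _ (hFF c))
    obtain ⟨i, hi⟩ : ∃ i : k' →ₐ[k] LL D', ∀ c, i c = algebraMap k' (LL D') c :=
      ⟨IsScalarTower.toAlgHom k k' (LL D'), fun c => rfl⟩
    obtain ⟨red, hr0, hr1, hr2, hr3⟩ := h4 k (LL D') ℂ_[l] k' P'.C P'.φ i j P'.ker (by
      intro c
      obtain ⟨e1, e2⟩ := P'.base c
      rw [hi c]
      exact ⟨e1, e2⟩) a b hΔ
    obtain ⟨vl, hvl⟩ : ∃ vl : LL D' →ₐ[k] Ω, ∀ z : LL D', vl z = (z : Ω) :=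
      ⟨(LL D').val.restrictScalars k, fun z => rfl⟩
    have hx0 : x ∈ LL D' := (hD' x).2 hxN
    have hy0 : y ∈ LL D' := (hD' y).2 hyN
    have heq : ∀ (u v : Ω) (hu : u ∈ LL D') (hv : v ∈ LL D'), Eq3 a b u v →
        Eq3 a b (⟨u, hu⟩ : LL D') (⟨v, hv⟩ : LL D') := by
      intro u v hu hv huv
      unfold Eq3 at huv ⊢
      apply (LL D').val.injective
      exact huv
    obtain ⟨Q0, hQ0⟩ : ∃ Q0 : EP a b (LL D'), Q0 = EP.pt hΔ (⟨x, hx0⟩ : LL D') ⟨y, hy0⟩
      (heq x y hx0 hy0 h) := ⟨_, rfl⟩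
    have hvQ0 : EP.map vl Q0 = Q := by
      rw [hQ0, EP.map_pt, hQ]
      exact EP.pt_congr hΔ (hvl _) (hvl _)
    refine ⟨red Q0, ?_⟩
    intro g τ hτn hτι
    have hx1 : D.s g x ∈ LL D' := (hD' _).2 (lct_stable D _ hS g x hxN)
    have hy1 : D.s g y ∈ LL D' := (hD' _).2 (lct_stable D _ hS g y hyN)
    have h1' : Eq3 a b (D.s g x) (D.s g y) := h.map (D.s g : Ω →ₐ[k] Ω)
    obtain ⟨Q1, hQ1⟩ : ∃ Q1 : EP a b (LL D'), Q1 = EP.pt hΔ (⟨D.s g x, hx1⟩ : LL D')
      ⟨D.s g y, hy1⟩ (heq _ _ hx1 hy1 h1') := ⟨_, rfl⟩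
    have hvQ1 : EP.map vl Q1 = EP.map (D.s g : Ω →ₐ[k] Ω) Q := by
      rw [hQ1, EP.map_pt, hQ, EP.map_pt]
      exact EP.pt_congr hΔ (hvl _) (hvl _)
    -- the point T over k'
    have hT : ∃ T : EP a b k', EP.map (IntermediateField.inclusion hle) T = ξ g ∧
        Q1 = Q0 + EP.map i T := by
      have hdiff : EP.map vl (Q1 - Q0) = EP.map (Acl k Ω).val (ξ g) := by
        rw [map_sub, hvQ0, hvQ1, hξ g]
        abel
      rcases EP.cases hΔ (ξ g) with h0 | ⟨u, v, huv, h0⟩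
      · refine ⟨0, by rw [map_zero, h0], ?_⟩
        rw [map_zero, add_zero]
        rw [h0, map_zero] at hdiff
        have : Q1 - Q0 = 0 := by
          apply EP.map_injective (a := a) (b := b) vl
          rw [hdiff, map_zero]
        exact sub_eq_zero.1 this
      · have hne : Q1 - Q0 ≠ 0 := by
          intro h00
          rw [h00, map_zero, h0, EP.map_pt] at hdiff
          exact EP.pt_ne_zero hΔ _ hdiff.symm
        rcases EP.cases hΔ (Q1 - Q0) with h00 | ⟨u', v', huv', h00⟩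
        · exact absurd h00 hne
        · rw [h00, h0, EP.map_pt, EP.map_pt] at hdiff
          obtain ⟨eu, ev⟩ := EP.pt_inj hΔ hdiff
          rw [hvl] at eu ev
          have hmem : ∀ (w : Acl k Ω) (w' : LL D'), (w' : Ω) = (Acl k Ω).val w → (w : Ω) ∈ k' := by
            intro w w' hw
            have e1 : (w : Ω) ∈ NN D (S : Set (Acl k Ω)) := by
              rw [← hD']
              have : (w : Ω) = (w' : Ω) := hw.symm
              rw [this]
              exact w'.2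
            have e2 := coe_mem_NN.1 e1
            rw [h7 k Ω (S : Set (Acl k Ω)), ← hk'] at e2
            exact e2
          have hu := hmem u u' eu
          have hv := hmem v v' ev
          have huvk : Eq3 a b (⟨(u : Ω), hu⟩ : k') (⟨(v : Ω), hv⟩ : k') := by
            have := huv.map (Acl k Ω).val
            unfold Eq3 at this ⊢
            apply k'.val.injective
            exact this
          refine ⟨EP.pt hΔ (⟨(u : Ω), hu⟩ : k') ⟨(v : Ω), hv⟩ huvk, ?_, ?_⟩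
          · rw [EP.map_pt, h0]
            exact EP.pt_congr hΔ (Subtype.ext rfl) (Subtype.ext rfl)
          · have : Q1 - Q0 = EP.map i (EP.pt hΔ (⟨(u : Ω), hu⟩ : k') ⟨(v : Ω), hv⟩ huvk) := by
              rw [h00, EP.map_pt]
              apply EP.pt_congr hΔ
              · rw [hi]
                exact Subtype.ext eu
              · rw [hi]
                exact Subtype.ext ev
            rw [← this]
            abel
    obtain ⟨T, hT1, hT2⟩ := hT
    have hredQ1 : red Q1 = red Q0 + EP.map ι (ξ g) := by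
      rw [hT2, hr3, ← hT1, EP.map_map, hj]
    rw [← hredQ1]
    -- equivariance
    have heqg := h3 k Ω D (S : Set (Acl k Ω)) (fun g a ha => hS g a ha) k' hk' D' hD' l
      (ι : Acl k Ω →+* ℂ_[l]) E₀ hfin hE₀ (j : k' →+* ℂ_[l]) (by
        intro c hc
        rw [hj]
        rfl) P' g (τ : ℂ_[l] ≃+* ℂ_[l]) hτn hτι
    have hxx := heqg ⟨x, hx0⟩ ⟨D.s g x, hx1⟩ rfl
    have hyy := heqg ⟨y, hy0⟩ ⟨D.s g y, hy1⟩ rfl
    by_cases hxC : (⟨x, hx0⟩ : LL D') ∈ P'.C
    · have hxC1 := hxx.1.1 hxC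
      obtain ⟨hyC, hh, er⟩ := hr2 _ _ (heq x y hx0 hy0 h) hxC
      obtain ⟨hyC1, hh1, er1⟩ := hr2 _ _ (heq _ _ hx1 hy1 h1') hxC1
      rw [hQ0, hQ1, er, er1, EP.map_pt]
      exact EP.pt_congr hΔ (hxx.2 hxC hxC1).symm (hyy.2 hyC hyC1).symm
    · have hxC1 : (⟨D.s g x, hx1⟩ : LL D') ∉ P'.C := fun hc => hxC (hxx.1.2 hc)
      rw [hQ0, hQ1, hr1 _ _ _ hxC, hr1 _ _ _ hxC1, map_zero]

end Pool.Agent.Helper18.NF
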